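import Pool.Agent.E8helper11.FL.Stm

/-! Erdős–Szekeres. -/

namespace Pool.Agent.E8helper36.FL

open FL11

/-- chain of length `n + 1` ending at `i`, for the relation `R` on values -/
def Ch (R : ℕ → ℕ → Prop) (f : ℕ → ℕ) (i n : ℕ) : Prop :=
  ∃ g : ℕ → ℕ, g n = i ∧ ∀ a b, a < b → b ≤ n → g a < g b ∧ R (f (g a)) (f (g b))

lemma Ch.zero (R : ℕ → ℕ → Prop) (f : ℕ → ℕ) (i : ℕ) : Ch R f i 0 :=
  ⟨fun _ => i, rfl, fun a b h1 h2 => by omega⟩

lemma Ch.step {R : ℕ → ℕ → Prop} (hR : ∀ a b c, R a b → R b c → R a c) {f : ℕ → ℕ} {i j n : ℕ}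
    (h : Ch R f i n) (hij : i < j) (hf : R (f i) (f j)) : Ch R f j (n + 1) := by
  obtain ⟨g, hg, H⟩ := h
  refine ⟨fun k => if k ≤ n then g k else j, by simp, ?_⟩
  intro a b hab hb
  by_cases hbn : b ≤ n
  · have han : a ≤ n := by omega
    simp only [hbn, han, if_true]
    exact H a b hab hbn
  · have hb' : b = n + 1 := by omega
    have han : a ≤ n := by omega
    subst hb'
    simp only [han, hbn, if_true, if_false]
    rcases Nat.lt_or_eq_of_le han with h1 | h1
    · obtain ⟨h2, h3⟩ := H a n h1 le_rfl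
      rw [hg] at h2 h3
      exact ⟨h2.trans hij, hR _ _ _ h3 hf⟩
    · subst h1
      rw [hg]
      exact ⟨hij, hf⟩

open Classical in
theorem es : S_ES := by
  intro t f hf
  have key : ∀ (R : ℕ → ℕ → Prop), (∀ i ≤ t * t, ¬ Ch R f i t) → (∀ a b c, R a b → R b c → R a c) →
      ∀ i ≤ t * t, Nat.findGreatest (Ch R f i) t < t ∧ ∀ j ≤ t * t, i < j → R (f i) (f j) →
        Nat.findGreatest (Ch R f i) t < Nat.findGreatest (Ch R f j) t := by
    intro R hno hR i hi
    have h0 : Ch R f i (Nat.findGreatest (Ch R f i) t) :=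
      Nat.findGreatest_spec (Nat.zero_le t) (Ch.zero R f i)
    have h1 : Nat.findGreatest (Ch R f i) t < t := by
      rcases Nat.lt_or_eq_of_le (Nat.findGreatest_le (P := Ch R f i) t) with h | h
      · exact h
      · exact absurd (h ▸ h0) (hno i hi)
    refine ⟨h1, fun j hj hij hR' => ?_⟩
    exact Nat.le_findGreatest h1 (h0.step hR hij hR')
  by_cases hA : ∃ i ≤ t * t, Ch (· < ·) f i t
  · obtain ⟨i, hi, g, hg, H⟩ := hA
    refine ⟨g, fun a b h1 h2 => (H a b h1 h2).1, fun a ha => ?_, Or.inl fun a b h1 h2 =>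
      (H a b h1 h2).2⟩
    rcases Nat.lt_or_eq_of_le ha with h | h
    · have := (H a t h le_rfl).1
      omega
    · subst h; omega
  by_cases hB : ∃ i ≤ t * t, Ch (fun a b => b < a) f i t
  · obtain ⟨i, hi, g, hg, H⟩ := hB
    refine ⟨g, fun a b h1 h2 => (H a b h1 h2).1, fun a ha => ?_, Or.inr fun a b h1 h2 =>
      (H a b h1 h2).2⟩
    rcases Nat.lt_or_eq_of_le ha with h | h
    · have := (H a t h le_rfl).1
      omega
    · subst h; omega
  exfalso
  push Not at hA hB
  have k1 := key (· < ·) hA (fun a b c h1 h2 => lt_trans h1 h2)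
  have k2 := key (fun a b => b < a) hB (fun a b c h1 h2 => lt_trans h2 h1)
  have hp : ∃ i ∈ Finset.range (t * t + 1), ∃ j ∈ Finset.range (t * t + 1), i ≠ j ∧
      (Nat.findGreatest (Ch (· < ·) f i) t, Nat.findGreatest (Ch (fun a b => b < a) f i) t) =
      (Nat.findGreatest (Ch (· < ·) f j) t, Nat.findGreatest (Ch (fun a b => b < a) f j) t) := by
    apply Finset.exists_ne_map_eq_of_card_lt_of_maps_to
      (t := Finset.range t ×ˢ Finset.range t)
      (f := fun i => (Nat.findGreatest (Ch (· < ·) f i) t,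
        Nat.findGreatest (Ch (fun a b => b < a) f i) t))
    · simp
    · intro i hi
      simp only [Finset.coe_range, Set.mem_Iio] at hi
      simp only [Finset.coe_product, Finset.coe_range, Set.mem_prod, Set.mem_Iio]
      exact ⟨(k1 i (by omega)).1, (k2 i (by omega)).1⟩
  obtain ⟨i, hi, j, hj, hij, he⟩ := hp
  rw [Finset.mem_range] at hi hj
  have main : ∀ i j, i < t * t + 1 → j < t * t + 1 → i < j →
      (Nat.findGreatest (Ch (· < ·) f i) t, Nat.findGreatest (Ch (fun a b => b < a) f i) t) =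
      (Nat.findGreatest (Ch (· < ·) f j) t, Nat.findGreatest (Ch (fun a b => b < a) f j) t) →
      False := by
    intro i j hi hj hij he
    rw [Prod.mk.injEq] at he
    rcases Nat.lt_or_gt_of_ne (hf i j hij (by omega)) with h | h
    · have := (k1 i (by omega)).2 j (by omega) hij h
      omega
    · have := (k2 i (by omega)).2 j (by omega) hij h
      omega
  rcases Nat.lt_or_gt_of_ne hij with h | h
  · exact main i j hi hj h he
  · exact main j i hj hi h he.symm

end Pool.Agent.E8helper36.FL
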