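import Pool.Agent.E8helper11.FL.Stm

/-! A minimum connected set and a rooted spanning tree of it. -/

namespace Pool.Agent.E8helper36.FL

open FL11 SimpleGraph

open Classical in
lemma tree_of_conn {V : Type} (G : SimpleGraph V) (S : Finset V)
    (hS : (G.induce (S : Set V)).Connected) :
    ∃ (r : V) (par : V → V) (h : V → ℕ), RTree G S r par h := by
  obtain ⟨r0⟩ := hS.nonempty
  have hr0 : (r0 : V) ∈ S := r0.2
  have ex : ∀ x : (S : Set V), x ≠ r0 → ∃ y : (S : Set V), (G.induce (S : Set V)).Adj x y ∧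
      (G.induce (S : Set V)).dist y r0 + 1 = (G.induce (S : Set V)).dist x r0 := by
    intro x hx
    obtain ⟨p, hp⟩ := hS.exists_walk_length_eq_dist x r0
    cases p with
    | nil => exact absurd rfl hx
    | @cons _ y _ hxy p' =>
      refine ⟨y, hxy, ?_⟩
      have h1 : (G.induce (S : Set V)).dist y r0 ≤ p'.length := dist_le p'
      have h2 : p'.length + 1 = (G.induce (S : Set V)).dist x r0 := by
        rw [← hp, Walk.length_cons]
      have h3 : (G.induce (S : Set V)).dist x r0 ≤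
          (G.induce (S : Set V)).dist x y + (G.induce (S : Set V)).dist y r0 :=
        hS.dist_triangle
      have h4 : (G.induce (S : Set V)).dist x y = 1 := dist_eq_one_iff_adj.2 hxy
      omega
  choose f hf1 hf2 using ex
  refine ⟨r0, fun x => if hx : ∃ h : x ∈ (S : Set V), (⟨x, h⟩ : (S : Set V)) ≠ r0 then
      (f ⟨x, hx.1⟩ hx.2 : V) else r0,
    fun x => if hx : x ∈ (S : Set V) then (G.induce (S : Set V)).dist ⟨x, hx⟩ r0 else 0,
    ⟨hr0, ?_, ?_, ?_, ?_, ?_⟩⟩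
  · intro x _
    split
    · exact (f _ _).2
    · exact hr0
  · show _ = _
    rw [dif_neg]
    rintro ⟨h, h'⟩
    exact h' rfl
  · intro x hx hxr
    have hh : ∃ h : x ∈ (S : Set V), (⟨x, h⟩ : (S : Set V)) ≠ r0 :=
      ⟨hx, fun he => hxr (by rw [← he])⟩
    rw [dif_pos hh]
    exact hf1 ⟨x, hh.1⟩ hh.2
  · intro x hx hxr
    have hh : ∃ h : x ∈ (S : Set V), (⟨x, h⟩ : (S : Set V)) ≠ r0 :=
      ⟨hx, fun he => hxr (by rw [← he])⟩
    rw [dif_pos hh, dif_pos (f ⟨x, hh.1⟩ hh.2).2, dif_pos (show x ∈ (S : Set V) from hx)]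
    exact hf2 ⟨x, hh.1⟩ hh.2
  · show _ = _
    rw [dif_pos r0.2]
    simp

theorem tree : S_TREE := by
  classical
  intro V _ G S0 Z O h1 h2 h3
  have hex : ∃ n : ℕ, ∃ S' : Finset V, (G.induce (S' : Set V)).Connected ∧ Z ⊆ S' ∧
      (S' : Set V) ⊆ O ∧ S'.card = n := ⟨_, S0, h1, h2, h3, rfl⟩
  obtain ⟨S, hS1, hS2, hS3, hS4⟩ := Nat.find_spec hex
  obtain ⟨r, par, h, hT⟩ := tree_of_conn G S hS1
  refine ⟨S, r, par, h, hT, hS2, hS3, fun S' a b c => ?_⟩
  rw [hS4]
  exact Nat.find_min' hex ⟨S', a, b, c, rfl⟩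

end Pool.Agent.E8helper36.FL
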